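import Mathlib
import Pool.Agent.H27.RC.Stmts

/-!
Quadratic forms of operators on `ℓ²(ℤ × Fin n)` on finitely supported vectors, diagonal operators.
-/

open scoped ENNReal NNReal InnerProductSpace ComplexOrder
open Filter Topology

noncomputable section

namespace Pool.Agent.H53.RC

open Pool.Agent.H27.RC

variable {n : ℕ}

/-- The vector with the coordinates `v q` for `q ∈ s` and `0` otherwise. -/
def vec (s : Finset (ℤ × Fin n)) (v : ℤ × Fin n → ℂ) : Hil n := ∑ q ∈ s, v q • del q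

theorem del_apply (p q : ℤ × Fin n) : (del q : Hil n) p = if p = q then 1 else 0 := by
  by_cases h : p = q
  · subst h
    rw [if_pos rfl]
    exact lp.single_apply_self _ _ _
  · rw [if_neg h]
    exact lp.single_apply_ne _ _ _ h

theorem coe_sum_apply (s : Finset (ℤ × Fin n)) (F : ℤ × Fin n → Hil n) (r : ℤ × Fin n) :
    (∑ q ∈ s, F q : Hil n) r = ∑ q ∈ s, F q r := by
  rw [lp.coeFn_sum, Finset.sum_apply]

theorem apply_vec (T : Hil n →L[ℂ] Hil n) (s : Finset (ℤ × Fin n)) (v : ℤ × Fin n → ℂ)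
    (r : ℤ × Fin n) : (T (vec s v)) r = ∑ q ∈ s, v q * entry T r q := by
  unfold vec entry
  rw [map_sum, coe_sum_apply]
  refine Finset.sum_congr rfl fun q _ => ?_
  rw [map_smul, lp.coeFn_smul, Pi.smul_apply, smul_eq_mul]

theorem quad_eq (T : Hil n →L[ℂ] Hil n) (s : Finset (ℤ × Fin n)) (v : ℤ × Fin n → ℂ) :
    ∑ p ∈ s, ∑ q ∈ s, (starRingEnd ℂ) (v p) * entry T p q * v q = ⟪vec s v, T (vec s v)⟫_ℂ := by
  conv_rhs => rw [vec, sum_inner]
  refine Finset.sum_congr rfl fun p _ => ?_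
  rw [inner_smul_left]
  have h1 : ⟪(del p : Hil n), T (∑ q ∈ s, v q • del q)⟫_ℂ = (T (vec s v)) p := by
    unfold del
    rw [lp.inner_single_left]
    simp [vec, del]
  rw [h1, apply_vec, Finset.mul_sum]
  refine Finset.sum_congr rfl fun q _ => ?_
  ring

/-- Diagonal operators act diagonally. -/
theorem diag_apply (D : Hil n →L[ℂ] Hil n) (d : ℤ × Fin n → ℂ)
    (hd : ∀ p q, entry D p q = if p = q then d p else 0) (η : Hil n) (r : ℤ × Fin n) :
    (D η) r = d r * η r := by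
  have h2 : HasSum (fun q => lp.single 2 q (η q)) η :=
    lp.hasSum_single (by simp) η
  have h3 : HasSum (fun q => D (lp.single 2 q (η q))) (D η) := D.hasSum h2
  have h4 : HasSum (fun q => (D (lp.single 2 q (η q))) r) ((D η) r) := by
    exact (lp.evalCLM ℂ (fun _ : ℤ × Fin n => ℂ) 2 r).hasSum h3
  have h5 : (fun q => (D (lp.single 2 q (η q))) r) = fun q => if q = r then d r * η r else 0 := by
    funext q
    have h6 : (lp.single 2 q (η q) : Hil n) = η q • del q := by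
      unfold del
      rw [← lp.single_smul, smul_eq_mul, mul_one]
    rw [h6, map_smul, lp.coeFn_smul, Pi.smul_apply, smul_eq_mul]
    have h7 := hd r q
    unfold entry at h7
    rw [h7]
    by_cases hq : q = r
    · subst hq
      simp [mul_comm]
    · rw [if_neg (fun h => hq h.symm), if_neg hq, mul_zero]
  rw [h5] at h4
  exact h4.unique (hasSum_ite_eq r _)

/-- The quadratic form of a diagonal operator with nonnegative entries. -/
theorem diag_inner (D : Hil n →L[ℂ] Hil n) (d : ℤ × Fin n → ℝ) (hd0 : ∀ p, 0 ≤ d p)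
    (hd : ∀ p q, entry D p q = if p = q then (d p : ℂ) else 0) (η : Hil n) :
    ∃ B : ℝ, ⟪η, D η⟫_ℂ = (B : ℂ) ∧ ∀ F : Finset (ℤ × Fin n), ∑ r ∈ F, d r * ‖η r‖ ^ 2 ≤ B := by
  have h1 : HasSum (fun r => ⟪η r, (D η) r⟫_ℂ) ⟪η, D η⟫_ℂ := lp.hasSum_inner η (D η)
  have h2 : (fun r => ⟪η r, (D η) r⟫_ℂ) = fun r => (((d r * ‖η r‖ ^ 2 : ℝ)) : ℂ) := by
    funext r
    rw [diag_apply D (fun p => (d p : ℂ)) hd, ← smul_eq_mul, inner_smul_right,
      inner_self_eq_norm_sq_to_K]
    push_cast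
    rfl
  rw [h2] at h1
  have h3 : Summable fun r => (d r * ‖η r‖ ^ 2 : ℝ) := by
    have := h1.summable
    exact Complex.summable_ofReal.mp this
  refine ⟨∑' r, d r * ‖η r‖ ^ 2, ?_, fun F => ?_⟩
  · have h4 : HasSum (fun r => (((d r * ‖η r‖ ^ 2 : ℝ)) : ℂ))
        ((∑' r, d r * ‖η r‖ ^ 2 : ℝ) : ℂ) := Complex.hasSum_ofReal.mpr h3.hasSum
    exact h1.unique h4
  · exact h3.sum_le_tsum F (fun r _ => mul_nonneg (hd0 r) (by positivity))

theorem star_inner (S D : Hil n →L[ℂ] Hil n) (ξ : Hil n) :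
    ⟪ξ, (star S * D * S) ξ⟫_ℂ = ⟪S ξ, D (S ξ)⟫_ℂ := by
  rw [ContinuousLinearMap.star_eq_adjoint]
  rw [mul_apply_eq_comp, mul_apply_eq_comp, ContinuousLinearMap.adjoint_inner_right]

end Pool.Agent.H53.RC
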