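import Mathlib
import Pool.Agent.H53.RC.Quad

/-!
Module COS of the project RC: comparison of open sets with small upper density.
-/

open scoped ENNReal NNReal InnerProductSpace ComplexOrder
open Filter Topology

noncomputable section

namespace Pool.Agent.H53.RC

open Pool.Agent.H27.RC

/-! ### Combinatorics -/

/-- Chains of positions which see a nonzero marker are short. -/
theorem chain_marker (K : ℕ) (φ : ℤ → ℝ)
    (hgap : ∀ (a i : ℤ), i ≠ 0 → |i| ≤ ((2 * K + 1 : ℕ) : ℤ) → φ a = 0 ∨ φ (a + i) = 0)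
    (U : Finset ℤ) (hU : ∀ u ∈ U, ∃ i : ℕ, i ≤ K ∧ φ (u + i) ≠ 0)
    (u : ℤ) (hu : u ∈ U) (v : ℤ) (hv : v ∈ U) (huv : u ≤ v)
    (hch : ∀ a : ℤ, u ≤ a → a < v → ∃ w ∈ U, a < w ∧ w ≤ a + K) : v - u ≤ K := by
  obtain ⟨i₀, hi₀, hφ₀⟩ := hU u hu
  set m : ℤ := u + i₀ with hm
  set T : Finset ℤ := U.filter (fun w => u ≤ w ∧ w ≤ v ∧ w ≤ m ∧ m ≤ w + K) with hT
  have huT : u ∈ T := by
    rw [hT, Finset.mem_filter]
    refine ⟨hu, le_refl _, huv, ?_, ?_⟩ <;> omega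
  obtain ⟨w, hwT, hwmax⟩ := T.exists_max_image id ⟨u, huT⟩
  rw [hT, Finset.mem_filter] at hwT
  obtain ⟨hwU, huw, hwv, hwm, hmw⟩ := hwT
  rcases eq_or_lt_of_le hwv with h | h
  · subst h
    omega
  · obtain ⟨w', hw'U, hww', hw'K⟩ := hch w huw h
    set w'' := min w' v with hw''
    have hw''U : w'' ∈ U := by
      rcases min_choice w' v with h1 | h1
      · rw [hw'', h1]; exact hw'U
      · rw [hw'', h1]; exact hv
    have h1 : w < w'' := lt_min hww' h
    have h2 : w'' ≤ w + K := le_trans (min_le_left _ _) hw'K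
    have h3 : w'' ≤ v := min_le_right _ _
    obtain ⟨i, hi, hφ⟩ := hU w'' hw''U
    have h4 : w'' + i = m := by
      by_contra hne
      have h5 := hgap m (w'' + i - m) (by omega) (by rw [abs_le]; constructor <;> omega)
      rcases h5 with h5 | h5
      · exact hφ₀ h5
      · rw [show m + (w'' + i - m) = w'' + i by ring] at h5
        exact hφ h5
    have h6 : w'' ∈ T := by
      rw [hT, Finset.mem_filter]
      refine ⟨hw''U, ?_, h3, ?_, ?_⟩ <;> omega
    have h7 := hwmax w'' h6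
    simp only [id] at h7
    omega

/-- Chains of positions which see no full marker are short. -/
theorem chain_empty (K R₀ : ℕ) (φ : ℤ → ℝ) (hsyn : ∀ a : ℤ, ∃ i : ℕ, i ≤ R₀ ∧ φ (a + i) = 1)
    (U : Finset ℤ) (hU : ∀ u ∈ U, ∀ i : ℕ, i ≤ K → φ (u + i) ≠ 1)
    (u : ℤ) (hu : u ∈ U) (v : ℤ)
    (hch : ∀ a : ℤ, u ≤ a → a < v → ∃ w ∈ U, a < w ∧ w ≤ a + K) : v - u ≤ R₀ := by
  have hno : ∀ a : ℤ, u ≤ a → a ≤ v → φ a ≠ 1 := by
    intro a hua hav
    set T : Finset ℤ := U.filter (fun w => w ≤ a) with hT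
    have huT : u ∈ T := by
      rw [hT, Finset.mem_filter]
      exact ⟨hu, hua⟩
    obtain ⟨w, hwT, hwmax⟩ := T.exists_max_image id ⟨u, huT⟩
    have huw : u ≤ w := hwmax u huT
    rw [hT, Finset.mem_filter] at hwT
    obtain ⟨hwU, hwa⟩ := hwT
    by_contra hne
    have h1 : w + K < a := by
      by_contra h2
      push Not at h2
      have h3 := hU w hwU (a - w).toNat (by omega)
      rw [show w + ((a - w).toNat : ℤ) = a by omega] at h3
      exact h3 hne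
    have h4 : w < v := by omega
    obtain ⟨w', hw'U, hww', hw'K⟩ := hch w huw h4
    have h5 : w' ∈ T := by
      rw [hT, Finset.mem_filter]
      exact ⟨hw'U, by omega⟩
    have h6 := hwmax w' h5
    simp only [id] at h6
    omega
  obtain ⟨i, hi, hφ⟩ := hsyn u
  by_contra hcon
  push Not at hcon
  exact hno (u + i) (by omega) (by omega) hφ

/-- The Hall condition from the comparison of counts on long windows. -/
theorem hall_cond (K : ℕ) (P Q : ℤ → Prop) [DecidablePred P] [DecidablePred Q]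
    (hPQ : ∀ (a : ℤ) (N : ℕ), K ≤ N → {u : ℕ | u < N ∧ P (a + u)}.ncard ≤
      {u : ℕ | u < N ∧ Q (a + u)}.ncard)
    (a₀ b₀ : ℤ) (U : Finset ℤ) (hU : ∀ u ∈ U, a₀ ≤ u ∧ u ≤ b₀ ∧ P u) (a b : ℤ) :
    (U ∩ Finset.Icc a b).card ≤
      (((Finset.Icc a₀ (b₀ + K)).filter Q) ∩ Finset.Icc a (b + K)).card := by
  set a' := max a a₀ with ha'
  set b' := min b b₀ with hb'
  by_cases hab : a' ≤ b'
  · set N : ℕ := (b' + K + 1 - a').toNat with hN
    have hKN : K ≤ N := by omega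
    have h1 := hPQ a' N hKN
    have h2 : (U ∩ Finset.Icc a b).card ≤ {u : ℕ | u < N ∧ P (a' + u)}.ncard := by
      rw [← Set.ncard_coe_finset]
      refine Set.ncard_le_ncard_of_injOn (fun u : ℤ => (u - a').toNat) ?_ ?_ ?_
      · intro u hu
        simp only [Finset.coe_inter, Set.mem_inter_iff, Finset.mem_coe, 
          Finset.coe_Icc, Set.mem_Icc] at hu
        obtain ⟨h3, h4, h5⟩ := hU u hu.1
        have h6 : a' ≤ u := max_le hu.2.1 h3
        have h7 : u ≤ b' := le_min hu.2.2 h4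
        refine ⟨?_, ?_⟩
        · show (u - a').toNat < N
          omega
        · show P (a' + ((u - a').toNat : ℤ))
          rw [show a' + ((u - a').toNat : ℤ) = u by omega]
          exact h5
      · intro u hu w hw huw
        simp only [Finset.coe_inter, Set.mem_inter_iff, Finset.mem_coe, 
          Finset.coe_Icc, Set.mem_Icc] at hu hw
        obtain ⟨h3, h4, h5⟩ := hU u hu.1
        obtain ⟨h3', h4', h5'⟩ := hU w hw.1
        have h6 : a' ≤ u := max_le hu.2.1 h3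
        have h6' : a' ≤ w := max_le hw.2.1 h3'
        have h8 : (u - a').toNat = (w - a').toNat := huw
        omega
      · exact (Set.finite_lt_nat N).subset fun u hu => hu.1
    have h3 : {u : ℕ | u < N ∧ Q (a' + u)}.ncard ≤
        (((Finset.Icc a₀ (b₀ + K)).filter Q) ∩ Finset.Icc a (b + K)).card := by
      rw [← Set.ncard_coe_finset]
      refine Set.ncard_le_ncard_of_injOn (fun u : ℕ => a' + (u : ℤ)) ?_ ?_ ?_
      · rintro u ⟨hu, hQ⟩
        have hu' : (u : ℤ) < N := by exact_mod_cast hu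
        simp only [Finset.coe_inter, Set.mem_inter_iff, Finset.mem_coe, Finset.mem_Icc,
          Finset.coe_Icc, Set.mem_Icc, Finset.mem_filter]
        have h4 : a₀ ≤ a' := le_max_right _ _
        have h5 : a ≤ a' := le_max_left _ _
        have h6 : b' ≤ b := min_le_left _ _
        have h7 : b' ≤ b₀ := min_le_right _ _
        refine ⟨⟨⟨?_, ?_⟩, hQ⟩, ?_, ?_⟩ <;> omega
      · intro u _ w _ huw
        have : a' + (u : ℤ) = a' + (w : ℤ) := huw
        omega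
      · exact Finset.finite_toSet _
    exact le_trans h2 (le_trans h1 h3)
  · have h1 : U ∩ Finset.Icc a b = ∅ := by
      rw [Finset.eq_empty_iff_forall_notMem]
      intro u hu
      rw [Finset.mem_inter, Finset.mem_Icc] at hu
      obtain ⟨h3, h4, _⟩ := hU u hu.1
      exact hab (le_trans (max_le hu.2.1 h3) (le_min hu.2.2 h4))
    rw [h1]
    simp

/-! ### The element `t` -/

section elements

variable {X : Type} [TopologicalSpace X]

/-- `θ₀`, the product of the `1 - Φ ∘ h^i`, `0 ≤ i ≤ K`. -/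
def thetaZ (h : X ≃ₜ X) (K : ℕ) (Φ : X → ℝ) (x : X) : ℝ :=
  ∏ i ∈ Finset.range (K + 1), (1 - Φ ((h ^ (i : ℤ)) x))

/-- `θ_c`. -/
def th (h : X ≃ₜ X) (K : ℕ) (Φ : X → ℝ) (c : Fin 2) (x : X) : ℝ :=
  if c = 0 then thetaZ h K Φ x else 1 - thetaZ h K Φ x

/-- `g_c`. -/
def gg (h : X ≃ₜ X) (K : ℕ) (Φ f : X → ℝ) (κ : ℝ) (c : Fin 2) (x : X) : ℝ :=
  Real.sqrt (th h K Φ c x * max 0 (f x - κ))

/-- The index of the pair `(c, e)`. -/
def jj {n : ℕ} (c : Fin 2) (e : Fin n) : Fin (2 * n) := finProdFinEquiv (c, e)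

/-- The coefficients of `t`. -/
def cc (h : X ≃ₜ X) {n : ℕ} (K : ℕ) (g : Fin 2 → X → ℝ) (ω : Fin (2 * n) → X → ℝ) (co : ℕ → ℝ)
    (k : ℤ) (y : X) : Matrix (Fin n) (Fin n) ℂ :=
  Matrix.of fun e' e => if (e' : ℕ) = 0 ∧ 0 ≤ k ∧ k ≤ K then
    ((∑ c : Fin 2, ω (jj c e) y * (co k.toNat * g c ((h ^ (-k)) y)) : ℝ) : ℂ) else 0

variable (h : X ≃ₜ X) (K : ℕ) (Φ f : X → ℝ) (κ : ℝ)

theorem thetaZ_mem (hΦ : ∀ x, 0 ≤ Φ x ∧ Φ x ≤ 1) (x : X) :
    0 ≤ thetaZ h K Φ x ∧ thetaZ h K Φ x ≤ 1 := by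
  unfold thetaZ
  constructor
  · refine Finset.prod_nonneg fun i _ => ?_
    have := hΦ ((h ^ (i : ℤ)) x)
    linarith
  · refine Finset.prod_le_one (fun i _ => ?_) fun i _ => ?_
    · have := hΦ ((h ^ (i : ℤ)) x)
      linarith
    · have := hΦ ((h ^ (i : ℤ)) x)
      linarith

theorem th_nonneg (hΦ : ∀ x, 0 ≤ Φ x ∧ Φ x ≤ 1) (c : Fin 2) (x : X) : 0 ≤ th h K Φ c x := by
  unfold th
  have := thetaZ_mem h K Φ hΦ x
  split_ifs <;> linarith

theorem thetaZ_cont (hΦ : Continuous Φ) : Continuous (thetaZ h K Φ) := by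
  unfold thetaZ
  refine continuous_finsetProd _ fun i _ => ?_
  exact continuous_const.sub (hΦ.comp (h ^ (i : ℤ)).continuous)

theorem th_cont (hΦ : Continuous Φ) (c : Fin 2) : Continuous (th h K Φ c) := by
  have h1 := thetaZ_cont h K Φ hΦ
  unfold th
  split_ifs
  · exact h1
  · exact continuous_const.sub h1

theorem gg_cont (hΦ : Continuous Φ) (hf : Continuous f) (c : Fin 2) :
    Continuous (gg h K Φ f κ c) := by
  unfold gg
  exact Real.continuous_sqrt.comp ((th_cont h K Φ hΦ c).mul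
    (continuous_const.max (hf.sub continuous_const)))

theorem gg_sq (hΦ : ∀ x, 0 ≤ Φ x ∧ Φ x ≤ 1) (x : X) :
    ∑ c : Fin 2, gg h K Φ f κ c x ^ 2 = max 0 (f x - κ) := by
  have h1 : ∀ c : Fin 2, gg h K Φ f κ c x ^ 2 = th h K Φ c x * max 0 (f x - κ) := by
    intro c
    unfold gg
    exact Real.sq_sqrt (mul_nonneg (th_nonneg h K Φ hΦ c x) (le_max_left _ _))
  rw [Fin.sum_univ_two, h1, h1]
  unfold th
  simp only [if_true]
  rw [if_neg (by decide)]
  ring

theorem gg_ne_zero_f (hκ : 0 < κ) (c : Fin 2) (x : X) (hg : gg h K Φ f κ c x ≠ 0) : f x ≠ 0 := by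
  intro hf
  apply hg
  unfold gg
  rw [hf, max_eq_left (by linarith), mul_zero, Real.sqrt_zero]

theorem gg_zero_marker (x : X) (hg : gg h K Φ f κ 0 x ≠ 0) (i : ℕ) (hi : i ≤ K) :
    Φ ((h ^ (i : ℤ)) x) ≠ 1 := by
  intro h1
  apply hg
  unfold gg th thetaZ
  rw [if_pos rfl, Finset.prod_eq_zero (Finset.mem_range.mpr (Nat.lt_succ_of_le hi))
    (by rw [h1, sub_self]), zero_mul, Real.sqrt_zero]

theorem gg_one_marker (x : X) (hg : gg h K Φ f κ 1 x ≠ 0) :
    ∃ i : ℕ, i ≤ K ∧ Φ ((h ^ (i : ℤ)) x) ≠ 0 := by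
  by_contra hcon
  push Not at hcon
  apply hg
  unfold gg th thetaZ
  rw [if_neg (by decide), Finset.prod_eq_one, sub_self, zero_mul, Real.sqrt_zero]
  intro i hi
  rw [hcon i (Nat.lt_succ_iff.mp (Finset.mem_range.mp hi)), sub_zero]

theorem cc_cont {n : ℕ} (g : Fin 2 → X → ℝ) (ω : Fin (2 * n) → X → ℝ) (co : ℕ → ℝ)
    (hg : ∀ c, Continuous (g c)) (hω : ∀ j, Continuous (ω j)) (k : ℤ) :
    Continuous (cc h K g ω co k) := by
  unfold cc
  refine continuous_matrix fun e' e => ?_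
  simp only [Matrix.of_apply]
  split_ifs
  · refine Complex.continuous_ofReal.comp (continuous_finsetSum _ fun c _ => ?_)
    exact (hω _).mul (continuous_const.mul ((hg c).comp (h ^ (-k)).continuous))
  · exact continuous_const

end elements

theorem zpow_apply_zpow {X : Type} [TopologicalSpace X] (h : X ≃ₜ X) (a b : ℤ) (x : X) :
    (h ^ a) ((h ^ b) x) = (h ^ (a + b)) x := by
  rw [zpow_add]
  rfl

/-! ### Quadratic forms of the elements -/

theorem quad_diag {n : ℕ} (F : Hil n →L[ℂ] Hil n) (d : ℤ × Fin n → ℝ)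
    (hd : ∀ p q, entry F p q = if p = q then (d p : ℂ) else 0) (s : Finset (ℤ × Fin n))
    (v : ℤ × Fin n → ℂ) :
    ⟪vec s v, F (vec s v)⟫_ℂ = ((∑ p ∈ s, d p * ‖v p‖ ^ 2 : ℝ) : ℂ) := by
  rw [← quad_eq, Complex.ofReal_sum]
  refine Finset.sum_congr rfl fun p hp => ?_
  rw [Finset.sum_eq_single p]
  · rw [hd, if_pos rfl, mul_right_comm, Complex.conj_mul']
    push_cast
    ring
  · intro q _ hq
    rw [hd, if_neg (fun h => hq h.symm)]
    ring
  · intro h
    exact absurd hp h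

theorem entry_one {n : ℕ} (p q : ℤ × Fin n) :
    entry (1 : Hil n →L[ℂ] Hil n) p q = if p = q then ((1 : ℝ) : ℂ) else 0 := by
  unfold entry
  rw [one_apply_eq_self, del_apply]
  simp

/-- The value of `T ξ` at a point where `ω_{(c,e)} = 1`. -/
theorem eta_value {n : ℕ} (K : ℕ) (G : Fin 2 → ℤ → ℝ) (Om : Fin (2 * n) → ℤ → ℝ) (co : ℕ → ℝ)
    (T : Hil n →L[ℂ] Hil n)
    (hT : ∀ p q : ℤ × Fin n, entry T p q = if (p.2 : ℕ) = 0 ∧ 0 ≤ p.1 - q.1 ∧ p.1 - q.1 ≤ K then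
      ((∑ c : Fin 2, Om (jj c q.2) p.1 * (co (p.1 - q.1).toNat * G c q.1) : ℝ) : ℂ) else 0)
    (hOm : ∀ i j w, i ≠ j → Om i w = 0 ∨ Om j w = 0)
    (v : (ℤ × Fin n) →₀ ℂ) (a₀ b₀ : ℤ) (hv : ∀ p ∈ v.support, a₀ ≤ p.1 ∧ p.1 ≤ b₀)
    (e0 : Fin n) (he0 : (e0 : ℕ) = 0) (c : Fin 2) (e : Fin n) (w : ℤ)
    (hw : Om (jj c e) w = 1) :
    (T (vec v.support v)) (w, e0) =
      ∑ u ∈ ((Finset.Icc a₀ b₀).filter (fun u => G c u ≠ 0)).filter
        (fun u => u ≤ w ∧ w ≤ u + K),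
        (co (w - u).toNat : ℂ) * ((G c u : ℂ) * v (u, e)) := by
  set H : ℤ → ℂ := fun u => if u ≤ w ∧ w ≤ u + K then
    (co (w - u).toNat : ℂ) * ((G c u : ℂ) * v (u, e)) else 0 with hH
  have hRHS : ∑ u ∈ ((Finset.Icc a₀ b₀).filter (fun u => G c u ≠ 0)).filter
        (fun u => u ≤ w ∧ w ≤ u + K),
        (co (w - u).toNat : ℂ) * ((G c u : ℂ) * v (u, e)) = ∑ u ∈ Finset.Icc a₀ b₀, H u := by
    rw [Finset.sum_filter, Finset.sum_filter]
    refine Finset.sum_congr rfl fun u _ => ?_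
    by_cases hG : G c u = 0
    · rw [if_neg (by simpa using hG), hH]
      simp [hG]
    · rw [if_pos hG]
  rw [hRHS, apply_vec]
  have h1 : ∀ q : ℤ × Fin n, v q * entry T (w, e0) q = if q.2 = e then H q.1 else 0 := by
    intro q
    rw [hT]
    simp only
    by_cases hq : q.2 = e
    · rw [if_pos hq]
      by_cases hk : q.1 ≤ w ∧ w ≤ q.1 + K
      · rw [if_pos ⟨he0, by omega, by omega⟩]
        have h2 : (∑ c' : Fin 2, Om (jj c' q.2) w * (co (w - q.1).toNat * G c' q.1) : ℝ) =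
            co (w - q.1).toNat * G c q.1 := by
          rw [Finset.sum_eq_single c]
          · rw [hq, hw, one_mul]
          · intro c' _ hc'
            have h3 : jj c' q.2 ≠ jj c e := by
              unfold jj
              intro h4
              have h5 := finProdFinEquiv.injective h4
              exact hc' (Prod.ext_iff.mp h5).1
            rcases hOm _ _ w h3 with h4 | h4
            · rw [h4, zero_mul]
            · rw [hw] at h4
              exact absurd h4 one_ne_zero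
          · intro h
            exact absurd (Finset.mem_univ _) h
        rw [h2, hH]
        simp only
        rw [if_pos hk]
        have h6 : q = (q.1, e) := by rw [← hq]
        rw [← h6]
        push_cast
        ring
      · rw [if_neg (fun h => hk ⟨by omega, by omega⟩), mul_zero, hH]
        simp only
        rw [if_neg hk]
    · rw [if_neg hq]
      split_ifs with hk
      · have h2 : (∑ c' : Fin 2, Om (jj c' q.2) w * (co (w - q.1).toNat * G c' q.1) : ℝ) = 0 := by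
          refine Finset.sum_eq_zero fun c' _ => ?_
          have h3 : jj c' q.2 ≠ jj c e := by
            unfold jj
            intro h4
            have h5 := finProdFinEquiv.injective h4
            exact hq (Prod.ext_iff.mp h5).2
          rcases hOm _ _ w h3 with h4 | h4
          · rw [h4, zero_mul]
          · rw [hw] at h4
            exact absurd h4 one_ne_zero
        rw [h2]
        simp
      · rw [mul_zero]
  have h2 : v.support ⊆ Finset.Icc a₀ b₀ ×ˢ (Finset.univ : Finset (Fin n)) := by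
    intro p hp
    rw [Finset.mem_product, Finset.mem_Icc]
    exact ⟨hv p hp, Finset.mem_univ _⟩
  rw [Finset.sum_subset h2 (fun q _ hq => by
    rw [Finsupp.notMem_support_iff.mp hq, zero_mul]), Finset.sum_product]
  refine Finset.sum_congr rfl fun u _ => ?_
  simp only [h1]
  rw [Finset.sum_ite_eq' Finset.univ e (fun _ => H u), if_pos (Finset.mem_univ _)]

theorem sum3 {n : ℕ} (s : Finset ℤ) (A : Fin 2 → Fin n → ℤ → ℝ) :
    ∑ c : Fin 2, ∑ e : Fin n, ∑ u ∈ s, A c e u = ∑ u ∈ s, ∑ c : Fin 2, ∑ e : Fin n, A c e u := by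
  calc ∑ c : Fin 2, ∑ e : Fin n, ∑ u ∈ s, A c e u
      = ∑ c : Fin 2, ∑ u ∈ s, ∑ e : Fin n, A c e u :=
        Finset.sum_congr rfl fun c _ => Finset.sum_comm
    _ = ∑ u ∈ s, ∑ c : Fin 2, ∑ e : Fin n, A c e u := Finset.sum_comm

/-- The main inequality in one fibre. -/
theorem fibre_ineq {n : ℕ} (K R : ℕ) (G : Fin 2 → ℤ → ℝ) (Om : Fin (2 * n) → ℤ → ℝ) (co : ℕ → ℝ)
    (γ : ℝ)
    (hco : ∀ U W : Finset ℤ,
      (∀ u ∈ U, ∀ v ∈ U, u ≤ v → (∀ a : ℤ, u ≤ a → a < v → ∃ w ∈ U, a < w ∧ w ≤ a + K) →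
        v - u ≤ R) →
      (∀ a b : ℤ, a ≤ b → (U ∩ Finset.Icc a b).card ≤ (W ∩ Finset.Icc a (b + K)).card) →
      ∀ ξ : ℤ → ℂ, γ * ∑ u ∈ U, ‖ξ u‖ ^ 2 ≤
        ∑ v ∈ W, ‖∑ u ∈ U.filter (fun u => u ≤ v ∧ v ≤ u + K), (co (v - u).toNat : ℂ) * ξ u‖ ^ 2)
    (T D : Hil n →L[ℂ] Hil n)
    (hT : ∀ p q : ℤ × Fin n, entry T p q = if (p.2 : ℕ) = 0 ∧ 0 ≤ p.1 - q.1 ∧ p.1 - q.1 ≤ K then
      ((∑ c : Fin 2, Om (jj c q.2) p.1 * (co (p.1 - q.1).toNat * G c q.1) : ℝ) : ℂ) else 0)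
    (hD : ∀ p q : ℤ × Fin n, entry D p q = if p = q then
      (((if (p.2 : ℕ) = 0 then ∑ j, Om j p.1 ^ 2 else 0) : ℝ) : ℂ) else 0)
    (hOm : ∀ i j w, i ≠ j → Om i w = 0 ∨ Om j w = 0)
    (hchain : ∀ c : Fin 2, ∀ U : Finset ℤ, (∀ u ∈ U, G c u ≠ 0) → ∀ u ∈ U, ∀ v ∈ U, u ≤ v →
      (∀ a : ℤ, u ≤ a → a < v → ∃ w ∈ U, a < w ∧ w ≤ a + K) → v - u ≤ R)
    (P : ℤ → Prop) (hP : ∀ c u, G c u ≠ 0 → P u)
    (hPQ : ∀ (j : Fin (2 * n)) (a : ℤ) (N : ℕ), K ≤ N → {u : ℕ | u < N ∧ P (a + u)}.ncard ≤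
      {u : ℕ | u < N ∧ Om j (a + u) = 1}.ncard)
    (hn : 0 < n) (v : (ℤ × Fin n) →₀ ℂ) :
    ∃ B : ℝ, ⟪vec v.support v, (star T * D * T) (vec v.support v)⟫_ℂ = (B : ℂ) ∧
      γ * ∑ p ∈ v.support, (∑ c : Fin 2, G c p.1 ^ 2) * ‖v p‖ ^ 2 ≤ B := by
  classical
  obtain ⟨B, hB, hBF⟩ := diag_inner D (fun p => if (p.2 : ℕ) = 0 then ∑ j, Om j p.1 ^ 2 else 0)
    (fun p => by
      split_ifs
      · exact Finset.sum_nonneg fun j _ => sq_nonneg _
      · exact le_refl _) hD (T (vec v.support v))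
  refine ⟨B, ?_, ?_⟩
  · rw [star_inner, hB]
  · -- bounds of the support
    obtain ⟨a₀, b₀, hv⟩ : ∃ a₀ b₀ : ℤ, ∀ p ∈ v.support, a₀ ≤ p.1 ∧ p.1 ≤ b₀ := by
      refine ⟨-(∑ p ∈ v.support, |p.1|), ∑ p ∈ v.support, |p.1|, fun p hp => ?_⟩
      have h1 : |p.1| ≤ ∑ p ∈ v.support, |p.1| :=
        Finset.single_le_sum (f := fun p : ℤ × Fin n => |p.1|) (fun q _ => abs_nonneg _) hp
      exact abs_le.mp h1
    set e0 : Fin n := ⟨0, hn⟩ with he0
    set η := T (vec v.support v) with hη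
    set W : Fin 2 → Fin n → Finset ℤ :=
      fun c e => (Finset.Icc a₀ (b₀ + K)).filter (fun w => Om (jj c e) w = 1) with hW
    set U : Fin 2 → Finset ℤ := fun c => (Finset.Icc a₀ b₀).filter (fun u => G c u ≠ 0) with hU
    have h1 : ∑ w ∈ Finset.Icc a₀ (b₀ + K), (∑ j, Om j w ^ 2) * ‖η (w, e0)‖ ^ 2 ≤ B := by
      have h2 := hBF ((Finset.Icc a₀ (b₀ + K)).map ⟨fun w => (w, e0), fun a b h => by
        simpa using h⟩)
      rw [Finset.sum_map] at h2
      simpa [he0] using h2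
    have h2 : ∀ w, ∑ c : Fin 2, ∑ e : Fin n, (if Om (jj c e) w = 1 then (1 : ℝ) else 0) ≤
        ∑ j, Om j w ^ 2 := by
      intro w
      have h3 : ∑ j : Fin (2 * n), (if Om j w = 1 then (1 : ℝ) else 0) ≤ ∑ j, Om j w ^ 2 := by
        refine Finset.sum_le_sum fun j _ => ?_
        split_ifs with h4
        · rw [h4]; norm_num
        · positivity
      refine le_trans (le_of_eq ?_) h3
      rw [← Finset.sum_product', Finset.univ_product_univ]
      exact Fintype.sum_equiv finProdFinEquiv _ _ (fun p => rfl)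
    have h3 : ∑ c : Fin 2, ∑ e : Fin n, ∑ w ∈ W c e, ‖η (w, e0)‖ ^ 2 ≤ B := by
      refine le_trans ?_ h1
      have h4 : ∀ c : Fin 2, ∀ e : Fin n, ∑ w ∈ W c e, ‖η (w, e0)‖ ^ 2 =
          ∑ w ∈ Finset.Icc a₀ (b₀ + K), (if Om (jj c e) w = 1 then (1 : ℝ) else 0) *
            ‖η (w, e0)‖ ^ 2 := by
        intro c e
        rw [hW]
        simp only
        rw [Finset.sum_filter]
        refine Finset.sum_congr rfl fun w _ => ?_
        split_ifs
        · rw [one_mul]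
        · rw [zero_mul]
      simp only [h4]
      have h5 : ∑ c : Fin 2, ∑ e : Fin n, ∑ w ∈ Finset.Icc a₀ (b₀ + K),
          (if Om (jj c e) w = 1 then (1 : ℝ) else 0) * ‖η (w, e0)‖ ^ 2 =
          ∑ w ∈ Finset.Icc a₀ (b₀ + K), (∑ c : Fin 2, ∑ e : Fin n,
            (if Om (jj c e) w = 1 then (1 : ℝ) else 0)) * ‖η (w, e0)‖ ^ 2 := by
        rw [sum3]
        simp only [Finset.sum_mul]
      rw [h5]
      exact Finset.sum_le_sum fun w _ => mul_le_mul_of_nonneg_right (h2 w) (by positivity)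
    refine le_trans ?_ h3
    have h4 : ∀ (c : Fin 2) (e : Fin n), γ * ∑ u ∈ U c, ‖(G c u : ℂ) * v (u, e)‖ ^ 2 ≤
        ∑ w ∈ W c e, ‖η (w, e0)‖ ^ 2 := by
      intro c e
      have h5 := hco (U c) (W c e) (hchain c (U c) (fun u hu => (Finset.mem_filter.mp hu).2))
        (fun a b _ => hall_cond K P (fun w => Om (jj c e) w = 1) (hPQ (jj c e)) a₀ b₀ (U c)
          (fun u hu => by
            obtain ⟨h6, h7⟩ := Finset.mem_filter.mp hu
            rw [Finset.mem_Icc] at h6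
            exact ⟨h6.1, h6.2, hP c u h7⟩) a b) (fun u => (G c u : ℂ) * v (u, e))
      refine le_trans h5 (le_of_eq ?_)
      refine Finset.sum_congr rfl fun w hw => ?_
      rw [hη, eta_value K G Om co T hT hOm v a₀ b₀ hv e0 rfl c e w (Finset.mem_filter.mp hw).2]
    refine le_trans (le_of_eq ?_) (Finset.sum_le_sum fun c _ => Finset.sum_le_sum fun e _ => h4 c e)
    have h5 : ∀ (c : Fin 2) (e : Fin n), ∑ u ∈ U c, ‖(G c u : ℂ) * v (u, e)‖ ^ 2 =
        ∑ u ∈ Finset.Icc a₀ b₀, G c u ^ 2 * ‖v (u, e)‖ ^ 2 := by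
      intro c e
      rw [hU]
      simp only
      rw [Finset.sum_filter]
      refine Finset.sum_congr rfl fun u _ => ?_
      split_ifs with hG
      · rw [norm_mul, mul_pow, Complex.norm_real, Real.norm_eq_abs, sq_abs]
      · push Not at hG
        rw [hG]
        ring
    simp only [h5, ← Finset.mul_sum]
    congr 1
    have h6 : v.support ⊆ Finset.Icc a₀ b₀ ×ˢ (Finset.univ : Finset (Fin n)) := by
      intro p hp
      rw [Finset.mem_product, Finset.mem_Icc]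
      exact ⟨hv p hp, Finset.mem_univ _⟩
    rw [Finset.sum_subset h6 (fun q _ hq => by
      rw [Finsupp.notMem_support_iff.mp hq]; simp), Finset.sum_product]
    rw [sum3]
    refine Finset.sum_congr rfl fun u _ => ?_
    rw [Finset.sum_comm]
    refine Finset.sum_congr rfl fun e _ => ?_
    rw [Finset.sum_mul]

theorem cos (hMB : MBStmt) (hCOMB : COMBStmt) : COSStmt := by
  intro X _ _ _ h hmark n 𝒜 _ _ _ M hn f ω hf hf01 hω hω01 hωd hcount κ hκ
  obtain ⟨K, hK⟩ := hcount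
  obtain ⟨R₀, Φ, hΦc, hΦ01, hΦgap, hΦsyn⟩ := hmark (2 * K + 1)
  set R := max K R₀ with hR
  obtain ⟨co, γ, hγ, hco⟩ := hCOMB K R
  have hg : ∀ c, Continuous (gg h K Φ f κ c) := gg_cont h K Φ f κ hΦc hf
  obtain ⟨t, ht⟩ := M.band K (cc h K (gg h K Φ f κ) ω co)
    (cc_cont h K (gg h K Φ f κ) ω co hg hω)
  refine ⟨t, γ⁻¹, by positivity, fun Df Dω hDf hDω => ?_⟩
  rw [← sub_nonneg]
  obtain ⟨-, hpos, -⟩ := hMB X h n 𝒜 M
  apply hpos
  intro x v
  rw [quad_eq]
  set ξ := vec v.support v with hξ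
  set T := M.fib x t with hT
  have hTe : ∀ p q : ℤ × Fin n, entry T p q = if (p.2 : ℕ) = 0 ∧ 0 ≤ p.1 - q.1 ∧
      p.1 - q.1 ≤ K then
      ((∑ c : Fin 2, ω (jj c q.2) ((h ^ p.1) x) * (co (p.1 - q.1).toNat *
        gg h K Φ f κ c ((h ^ q.1) x)) : ℝ) : ℂ) else 0 := by
    intro p q
    rw [hT, ht.2 x p q]
    by_cases hk : (p.2 : ℕ) = 0 ∧ 0 ≤ p.1 - q.1 ∧ p.1 - q.1 ≤ K
    · rw [if_pos hk, if_pos (by rw [abs_of_nonneg hk.2.1]; exact hk.2.2)]
      unfold cc
      simp only [Matrix.of_apply]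
      rw [if_pos hk, zpow_apply_zpow, show -(p.1 - q.1) + p.1 = q.1 by ring]
    · rw [if_neg hk]
      split_ifs
      · unfold cc
        simp only [Matrix.of_apply]
        rw [if_neg hk]
      · rfl
  obtain ⟨B, hB, hBγ⟩ := fibre_ineq K R (fun c u => gg h K Φ f κ c ((h ^ u) x))
    (fun j w => ω j ((h ^ w) x)) co γ hco T (M.fib x Dω) hTe (fun p q => by
      rw [hDω x p q])
    (fun i j w hij => hωd i j _ hij)
    (fun c U hU u hu w hw huw hch => by
      fin_cases c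
      · refine le_trans (chain_empty K R₀ (fun a => Φ ((h ^ a) x)) (fun a => ?_) U
          (fun u hu i hi => ?_) u hu w hch) (by exact_mod_cast le_max_right _ _)
        · obtain ⟨i, hi, hφ⟩ := hΦsyn ((h ^ a) x)
          rw [zpow_apply_zpow, add_comm] at hφ
          exact ⟨i, hi, hφ⟩
        · have h1 := gg_zero_marker h K Φ f κ ((h ^ u) x) (hU u hu) i hi
          rw [zpow_apply_zpow, add_comm] at h1
          exact h1
      · refine le_trans (chain_marker K (fun a => Φ ((h ^ a) x)) (fun a i hi0 hi => ?_) U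
          (fun u hu => ?_) u hu w hw huw hch) (by exact_mod_cast le_max_left _ _)
        · have h1 := hΦgap ((h ^ a) x) i hi0 hi
          rw [zpow_apply_zpow, add_comm i a] at h1
          exact h1
        · obtain ⟨i, hi, hφ⟩ := gg_one_marker h K Φ f κ ((h ^ u) x) (hU u hu)
          rw [zpow_apply_zpow, add_comm] at hφ
          exact ⟨i, hi, hφ⟩)
    (fun u => f ((h ^ u) x) ≠ 0) (fun c u hG => gg_ne_zero_f h K Φ f κ hκ c _ hG)
    (fun j a N hN => by
      have h1 := hK N hN ((h ^ a) x) j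
      simp only [zpow_apply_zpow] at h1
      simp only [add_comm a]
      exact h1) hn v
  have hfib : M.fib x (γ⁻¹ • (star t * Dω * t) + κ • (1 : 𝒜) - Df) =
      ((γ⁻¹ : ℝ) : ℂ) • (star T * M.fib x Dω * T) + ((κ : ℝ) : ℂ) • (1 : Hil n →L[ℂ] Hil n) -
        M.fib x Df := by
    rw [← Complex.coe_smul γ⁻¹, ← Complex.coe_smul κ, map_sub, map_add, map_smul, map_smul,
      map_mul, map_mul, map_star, map_one]
  have hone : ⟪ξ, (1 : Hil n →L[ℂ] Hil n) ξ⟫_ℂ =
      ((∑ p ∈ v.support, 1 * ‖v p‖ ^ 2 : ℝ) : ℂ) :=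
    quad_diag 1 (fun _ => 1) entry_one v.support v
  have hDfq : ⟪ξ, (M.fib x Df) ξ⟫_ℂ =
      ((∑ p ∈ v.support, f ((h ^ p.1) x) * ‖v p‖ ^ 2 : ℝ) : ℂ) :=
    quad_diag (M.fib x Df) (fun p => f ((h ^ p.1) x)) (hDf x) v.support v
  have hsum : ⟪ξ, (M.fib x (γ⁻¹ • (star t * Dω * t) + κ • (1 : 𝒜) - Df)) ξ⟫_ℂ =
      ((γ⁻¹ * B + κ * ∑ p ∈ v.support, 1 * ‖v p‖ ^ 2 -
        ∑ p ∈ v.support, f ((h ^ p.1) x) * ‖v p‖ ^ 2 : ℝ) : ℂ) := by
    rw [hfib]
    simp only [sub_apply, add_apply, smul_apply, inner_sub_right, inner_add_right,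
      inner_smul_right]
    rw [hB, hone, hDfq]
    push_cast
    ring
  rw [hsum, Complex.zero_le_real]
  have h1 : ∑ p ∈ v.support, (∑ c : Fin 2, gg h K Φ f κ c ((h ^ p.1) x) ^ 2) * ‖v p‖ ^ 2 ≤
      γ⁻¹ * B := by
    rw [inv_mul_eq_div, le_div_iff₀ hγ, mul_comm]
    exact hBγ
  have h2 : ∑ p ∈ v.support, f ((h ^ p.1) x) * ‖v p‖ ^ 2 ≤
      ∑ p ∈ v.support, (∑ c : Fin 2, gg h K Φ f κ c ((h ^ p.1) x) ^ 2) * ‖v p‖ ^ 2 +
      κ * ∑ p ∈ v.support, 1 * ‖v p‖ ^ 2 := by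
    rw [Finset.mul_sum, ← Finset.sum_add_distrib]
    refine Finset.sum_le_sum fun p _ => ?_
    rw [gg_sq h K Φ f κ hΦ01]
    have h3 : f ((h ^ p.1) x) - κ ≤ max 0 (f ((h ^ p.1) x) - κ) := le_max_right _ _
    have h4 : 0 ≤ ‖v p‖ ^ 2 := by positivity
    nlinarith
  linarith

end Pool.Agent.H53.RC
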